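import Pool.Agent.helper59.QU.IpBasic

/-!
# qu:SCM (MP_07c750_an): strong convergence for matrices over the group algebra
-/

set_option autoImplicit false

open scoped MatrixGroups ContDiff Topology UpperHalfPlane
open MeasureTheory Filter Set

namespace Pool.Agent.QU

section regular

variable {G : Type} [Group G] {k : ℕ}

/-- inner product on `ℂ[G]^k` -/
noncomputable def SCM_IP (e f : Fin k → MonoidAlgebra ℂ G) : ℂ := ∑ i, ip (e i) (f i)

/-- square of the norm -/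
noncomputable def SCM_N (e : Fin k → MonoidAlgebra ℂ G) : ℝ := ∑ i, l2 (e i) ^ 2

theorem SCM_N_eq (e : Fin k → MonoidAlgebra ℂ G) : SCM_N e = (SCM_IP e e).re := by
  unfold SCM_N SCM_IP
  rw [Complex.re_sum]
  exact Finset.sum_congr rfl (fun i _ => SCM_l2_sq (e i))

omit [Group G] in
theorem SCM_N_nonneg (e : Fin k → MonoidAlgebra ℂ G) : 0 ≤ SCM_N e :=
  Finset.sum_nonneg (fun _ _ => sq_nonneg _)

theorem SCM_IP_add_left (e e' f : Fin k → MonoidAlgebra ℂ G) :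
    SCM_IP (e + e') f = SCM_IP e f + SCM_IP e' f := by
  unfold SCM_IP
  rw [← Finset.sum_add_distrib]
  exact Finset.sum_congr rfl (fun i _ => SCM_ip_add_left _ _ _)

theorem SCM_IP_add_right (e f f' : Fin k → MonoidAlgebra ℂ G) :
    SCM_IP e (f + f') = SCM_IP e f + SCM_IP e f' := by
  unfold SCM_IP
  rw [← Finset.sum_add_distrib]
  exact Finset.sum_congr rfl (fun i _ => SCM_ip_add_right _ _ _)

theorem SCM_IP_smul_left (e f : Fin k → MonoidAlgebra ℂ G) (c : ℂ) :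
    SCM_IP (c • e) f = star c * SCM_IP e f := by
  unfold SCM_IP
  rw [Finset.mul_sum]
  exact Finset.sum_congr rfl (fun i _ => SCM_ip_smul_left _ _ _)

theorem SCM_IP_smul_right (e f : Fin k → MonoidAlgebra ℂ G) (c : ℂ) :
    SCM_IP e (c • f) = c * SCM_IP e f := by
  unfold SCM_IP
  rw [Finset.mul_sum]
  exact Finset.sum_congr rfl (fun i _ => SCM_ip_smul_right _ _ _)

theorem SCM_IP_mulVec (P : Matrix (Fin k) (Fin k) (MonoidAlgebra ℂ G))
    (e f : Fin k → MonoidAlgebra ℂ G) :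
    SCM_IP e (P.mulVec f) = ∑ i, ∑ j, ip (e i) (P i j * f j) := by
  unfold SCM_IP
  apply Finset.sum_congr rfl
  intro i _
  exact SCM_ip_sum_right Finset.univ (e i) (fun j => P i j * f j)

theorem SCM_IP_herm (P : Matrix (Fin k) (Fin k) (MonoidAlgebra ℂ G))
    (hP : ∀ i j γ, (P i j).coeff γ = star ((P j i).coeff γ⁻¹)) (e f : Fin k → MonoidAlgebra ℂ G) :
    SCM_IP e (P.mulVec f) = star (SCM_IP f (P.mulVec e)) := by
  rw [SCM_IP_mulVec, SCM_IP_mulVec, star_sum, Finset.sum_comm]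
  apply Finset.sum_congr rfl
  intro i _
  rw [star_sum]
  apply Finset.sum_congr rfl
  intro j _
  exact SCM_ip_herm _ _ (hP j i) _ _

theorem SCM_contr (P : Matrix (Fin k) (Fin k) (MonoidAlgebra ℂ G)) (t : ℝ) (ht : 0 < t)
    (hP : ∀ i j γ, (P i j).coeff γ = star ((P j i).coeff γ⁻¹))
    (h0 : ∀ e : Fin k → MonoidAlgebra ℂ G, 0 ≤ (SCM_IP e (P.mulVec e)).re)
    (h1 : ∀ e : Fin k → MonoidAlgebra ℂ G, (SCM_IP e (P.mulVec e)).re ≤ t * SCM_N e)
    (f : Fin k → MonoidAlgebra ℂ G) : SCM_N (P.mulVec f) ≤ t ^ 2 * SCM_N f := by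
  set g := P.mulVec f with hg
  let c : ℂ := ((-(1 / t) : ℝ) : ℂ)
  have hgf : (SCM_IP g (P.mulVec f)).re = SCM_N g := by rw [SCM_N_eq, ← hg]
  have hfg : (SCM_IP f (P.mulVec g)).re = SCM_N g := by
    rw [SCM_IP_herm P hP f g, Complex.star_def, Complex.conj_re, hgf]
  have h2 := h0 (f + c • g)
  rw [Matrix.mulVec_add, Matrix.mulVec_smul, SCM_IP_add_left, SCM_IP_add_right, SCM_IP_add_right,
    SCM_IP_smul_left, SCM_IP_smul_left, SCM_IP_smul_right, SCM_IP_smul_right] at h2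
  have hc : star c = c := by
    simp only [c]
    rw [Complex.star_def, Complex.conj_ofReal]
  rw [hc] at h2
  simp only [c, Complex.add_re, Complex.re_ofReal_mul] at h2
  rw [hgf, hfg] at h2
  have h3 := h1 g
  have h4 := h1 f
  have h5 : (1 / t) * ((1 / t) * (SCM_IP g (P.mulVec g)).re) ≤ (1 / t) * SCM_N g := by
    apply mul_le_mul_of_nonneg_left _ (by positivity)
    rw [div_mul_eq_mul_div, one_mul, div_le_iff₀ ht, mul_comm]
    exact h3
  have h6 : (1 / t) * SCM_N g ≤ t * SCM_N f := by nlinarith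
  rw [div_mul_eq_mul_div, one_mul, div_le_iff₀ ht] at h6
  nlinarith

theorem SCM_contr_pow (P : Matrix (Fin k) (Fin k) (MonoidAlgebra ℂ G)) (t : ℝ)
    (h : ∀ f : Fin k → MonoidAlgebra ℂ G, SCM_N (P.mulVec f) ≤ t ^ 2 * SCM_N f) (N : ℕ)
    (f : Fin k → MonoidAlgebra ℂ G) : SCM_N ((P ^ N).mulVec f) ≤ (t ^ N) ^ 2 * SCM_N f := by
  induction N with
  | zero => simp
  | succ N ih =>
    rw [pow_succ' P, ← Matrix.mulVec_mulVec]
    refine (h _).trans ?_
    have : t ^ 2 * SCM_N ((P ^ N).mulVec f) ≤ t ^ 2 * ((t ^ N) ^ 2 * SCM_N f) :=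
      mul_le_mul_of_nonneg_left ih (sq_nonneg t)
    refine this.trans (le_of_eq ?_)
    ring

theorem SCM_regNorm (P : Matrix (Fin k) (Fin k) (MonoidAlgebra ℂ G)) (t : ℝ) (ht : 0 ≤ t)
    (h : ∀ f : Fin k → MonoidAlgebra ℂ G, SCM_N (P.mulVec f) ≤ t ^ 2 * SCM_N f) (i j : Fin k) :
    regNorm (P i j) ≤ t := by
  classical
  apply csInf_le ⟨0, fun c hc => hc.1⟩
  refine ⟨ht, fun u => ?_⟩
  have h1 := h (Pi.single j u)
  have h2 : P.mulVec (Pi.single j u) i = P i j * u := by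
    unfold Matrix.mulVec dotProduct
    rw [Finset.sum_eq_single j]
    · rw [Pi.single_eq_same]
    · intro b _ hb
      rw [Pi.single_eq_of_ne hb, mul_zero]
    · intro hj; exact absurd (Finset.mem_univ j) hj
  have h3 : SCM_N (Pi.single j u : Fin k → MonoidAlgebra ℂ G) = l2 u ^ 2 := by
    unfold SCM_N
    rw [Finset.sum_eq_single j]
    · rw [Pi.single_eq_same]
    · intro b _ hb
      rw [Pi.single_eq_of_ne hb, SCM_l2_sq, SCM_ip_zero_right, Complex.zero_re]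
    · intro hj; exact absurd (Finset.mem_univ j) hj
  have h4 : l2 (P i j * u) ^ 2 ≤ SCM_N (P.mulVec (Pi.single j u)) := by
    unfold SCM_N
    rw [← h2]
    exact Finset.single_le_sum (f := fun i => l2 (P.mulVec (Pi.single j u) i) ^ 2)
      (fun _ _ => sq_nonneg _) (Finset.mem_univ i)
  rw [h3] at h1
  have h5 : l2 (P i j * u) ^ 2 ≤ (t * l2 u) ^ 2 := by
    rw [mul_pow]; exact h4.trans h1
  exact abs_le_of_sq_le_sq' h5 (mul_nonneg ht (SCM_l2_nonneg u)) |>.2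

end regular

section hilbert

variable {V : Type} [NormedAddCommGroup V] [InnerProductSpace ℂ V] {k : ℕ}

/-- the operator on `V^k` given by a matrix of operators -/
noncomputable def SCM_T (B : Matrix (Fin k) (Fin k) (V →L[ℂ] V)) :
    PiLp 2 (fun _ : Fin k => V) →L[ℂ] PiLp 2 (fun _ : Fin k => V) :=
  ((PiLp.continuousLinearEquiv 2 ℂ (fun _ : Fin k => V)).symm :
      (Fin k → V) →L[ℂ] PiLp 2 (fun _ : Fin k => V)) ∘L
    (ContinuousLinearMap.pi fun i => ∑ j, (B i j) ∘L (ContinuousLinearMap.proj j)) ∘L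
    ((PiLp.continuousLinearEquiv 2 ℂ (fun _ : Fin k => V)) :
      PiLp 2 (fun _ : Fin k => V) →L[ℂ] (Fin k → V))

theorem SCM_T_apply (B : Matrix (Fin k) (Fin k) (V →L[ℂ] V)) (v : PiLp 2 (fun _ : Fin k => V))
    (i : Fin k) : SCM_T B v i = ∑ j, B i j (v j) := by
  simp [SCM_T]

theorem SCM_T_mul (B B' : Matrix (Fin k) (Fin k) (V →L[ℂ] V)) :
    SCM_T (B * B') = SCM_T B * SCM_T B' := by
  ext v i
  rw [mul_apply_eq_comp, SCM_T_apply, SCM_T_apply]
  have h1 : ∀ j, (B * B') i j (v j) = ∑ l, B i l (B' l j (v j)) := by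
    intro j
    rw [Matrix.mul_apply, sum_apply]
    rfl
  rw [Finset.sum_congr rfl (fun j _ => h1 j), Finset.sum_comm]
  apply Finset.sum_congr rfl
  intro l _
  rw [SCM_T_apply, map_sum]

theorem SCM_T_one : SCM_T (1 : Matrix (Fin k) (Fin k) (V →L[ℂ] V)) = 1 := by
  classical
  ext v i
  rw [SCM_T_apply, Finset.sum_eq_single i]
  · rw [Matrix.one_apply_eq]; rfl
  · intro j _ hj
    rw [Matrix.one_apply_ne (Ne.symm hj)]; rfl
  · intro hi; exact absurd (Finset.mem_univ i) hi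

theorem SCM_T_pow (B : Matrix (Fin k) (Fin k) (V →L[ℂ] V)) (N : ℕ) :
    SCM_T (B ^ N) = SCM_T B ^ N := by
  induction N with
  | zero => rw [pow_zero, pow_zero, SCM_T_one]
  | succ N ih => rw [pow_succ, pow_succ, SCM_T_mul, ih]

theorem SCM_T_norm (B : Matrix (Fin k) (Fin k) (V →L[ℂ] V)) (M : ℝ) (hM : 0 ≤ M)
    (h : ∀ i j, ‖B i j‖ ≤ M) : ‖SCM_T B‖ ≤ k * M := by
  refine ContinuousLinearMap.opNorm_le_bound _ (by positivity) (fun v => ?_)
  have h1 : ‖SCM_T B v‖ ^ 2 ≤ (k * M * ‖v‖) ^ 2 := by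
    rw [PiLp.norm_sq_eq_of_L2, mul_pow, PiLp.norm_sq_eq_of_L2 _ v]
    have h2 : ∀ i, ‖SCM_T B v i‖ ^ 2 ≤ M ^ 2 * (k * ∑ j, ‖v j‖ ^ 2) := by
      intro i
      have h3 : ‖SCM_T B v i‖ ≤ M * ∑ j, ‖v j‖ := by
        rw [SCM_T_apply, Finset.mul_sum]
        refine (norm_sum_le _ _).trans (Finset.sum_le_sum (fun j _ => ?_))
        exact ((B i j).le_opNorm _).trans (mul_le_mul_of_nonneg_right (h i j) (norm_nonneg _))
      have h4 : (∑ j, ‖v j‖) ^ 2 ≤ k * ∑ j, ‖v j‖ ^ 2 := by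
        have := sq_sum_le_card_mul_sum_sq (s := (Finset.univ : Finset (Fin k))) (f := fun j => ‖v j‖)
        simpa using this
      calc ‖SCM_T B v i‖ ^ 2 ≤ (M * ∑ j, ‖v j‖) ^ 2 := by
            gcongr
        _ = M ^ 2 * (∑ j, ‖v j‖) ^ 2 := by ring
        _ ≤ _ := mul_le_mul_of_nonneg_left h4 (sq_nonneg M)
    calc ∑ i, ‖SCM_T B v i‖ ^ 2 ≤ ∑ _i : Fin k, M ^ 2 * (k * ∑ j, ‖v j‖ ^ 2) :=
          Finset.sum_le_sum (fun i _ => h2 i)
      _ = _ := by
          rw [Finset.sum_const, Finset.card_univ, Fintype.card_fin, nsmul_eq_mul]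
          ring
  exact abs_le_of_sq_le_sq' h1 (by positivity) |>.2

theorem SCM_T_adj [CompleteSpace V] (B : Matrix (Fin k) (Fin k) (V →L[ℂ] V))
    (h : ∀ i j, ∀ v w : V, inner ℂ v (B i j w) = inner ℂ (B j i v) w) :
    IsSelfAdjoint (SCM_T B) := by
  rw [ContinuousLinearMap.isSelfAdjoint_iff_isSymmetric]
  intro v w
  change inner ℂ (SCM_T B v) w = inner ℂ v (SCM_T B w)
  rw [PiLp.inner_apply, PiLp.inner_apply]
  simp_rw [SCM_T_apply, sum_inner, inner_sum]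
  rw [Finset.sum_comm]
  apply Finset.sum_congr rfl
  intro i _
  apply Finset.sum_congr rfl
  intro j _
  exact (h i j (v i) (w j)).symm

variable {G : Type} [Group G]

/-- the representation as a homomorphism to the operators -/
noncomputable def SCM_hom (ρ : G →* (V ≃ₗᵢ[ℂ] V)) : G →* (V →L[ℂ] V) where
  toFun γ := (ρ γ).toLinearIsometry.toContinuousLinearMap
  map_one' := by
    ext v
    rw [map_one]
    rfl
  map_mul' γ δ := by
    ext v
    rw [map_mul]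
    rfl

/-- `rep` as a homomorphism of algebras -/
noncomputable def SCM_rep (ρ : G →* (V ≃ₗᵢ[ℂ] V)) : MonoidAlgebra ℂ G →ₐ[ℂ] (V →L[ℂ] V) :=
  MonoidAlgebra.lift ℂ (V →L[ℂ] V) G (SCM_hom ρ)

theorem SCM_rep_eq (ρ : G →* (V ≃ₗᵢ[ℂ] V)) (a : MonoidAlgebra ℂ G) : rep ρ a = SCM_rep ρ a := by
  unfold SCM_rep
  rw [MonoidAlgebra.lift_apply]
  rfl

theorem SCM_rep_apply (ρ : G →* (V ≃ₗᵢ[ℂ] V)) (a : MonoidAlgebra ℂ G) (v : V) :
    rep ρ a v = ∑ γ ∈ a.coeff.support, a.coeff γ • ρ γ v := by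
  unfold rep
  rw [sum_apply]
  rfl

theorem SCM_rep_adj (ρ : G →* (V ≃ₗᵢ[ℂ] V)) (a b : MonoidAlgebra ℂ G)
    (h : ∀ γ, a.coeff γ = star (b.coeff γ⁻¹)) (v w : V) :
    inner ℂ v (rep ρ a w) = inner ℂ (rep ρ b v) w := by
  rw [SCM_rep_apply, SCM_rep_apply, inner_sum, sum_inner]
  apply Finset.sum_nbij' (fun γ => γ⁻¹) (fun γ => γ⁻¹)
  · intro γ hγ
    rw [Finsupp.mem_support_iff] at hγ ⊢
    intro h0
    apply hγ
    rw [h γ, h0, star_zero]
  · intro γ hγ
    rw [Finsupp.mem_support_iff] at hγ ⊢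
    intro h0
    apply hγ
    rw [h γ⁻¹, inv_inv] at h0
    exact star_eq_zero.mp h0
  · intro γ _; exact inv_inv γ
  · intro γ _; exact inv_inv γ
  · intro γ _
    rw [inner_smul_right, inner_smul_left, h γ]
    have h1 : inner ℂ v (ρ γ w) = inner ℂ (ρ γ⁻¹ v) w := by
      have h2 : v = ρ γ (ρ γ⁻¹ v) := by
        have h3 : ρ γ * ρ γ⁻¹ = 1 := by rw [← map_mul, mul_inv_cancel, map_one]
        have h4 := congrArg (fun f : V ≃ₗᵢ[ℂ] V => f v) h3
        exact h4.symm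
      conv_lhs => rw [h2]
      exact LinearIsometryEquiv.inner_map_map (ρ γ) _ _
    rw [h1]
    rfl

end hilbert

section final

variable {G : Type} [Group G] {k : ℕ}

/-- `m + C` -/
noncomputable def SCM_P (m : Fin k → Fin k → MonoidAlgebra ℂ G) (C : ℝ) :
    Matrix (Fin k) (Fin k) (MonoidAlgebra ℂ G) :=
  fun i j => m i j + if i = j then (C : ℂ) • (1 : MonoidAlgebra ℂ G) else 0

theorem SCM_P_herm (m : Fin k → Fin k → MonoidAlgebra ℂ G) (C : ℝ)
    (hm : ∀ i j γ, (m i j).coeff γ = star ((m j i).coeff γ⁻¹)) (i j : Fin k) (γ : G) :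
    (SCM_P m C i j).coeff γ = star ((SCM_P m C j i).coeff γ⁻¹) := by
  classical
  unfold SCM_P
  rw [MonoidAlgebra.coeff_add, MonoidAlgebra.coeff_add, Finsupp.add_apply, Finsupp.add_apply,
    star_add, ← hm i j γ]
  by_cases hij : i = j
  · subst hij
    rw [if_pos rfl, MonoidAlgebra.coeff_smul, Finsupp.smul_apply, Finsupp.smul_apply,
      MonoidAlgebra.one_def, MonoidAlgebra.coeff_single]
    by_cases hγ : γ = 1
    · subst hγ
      rw [inv_one, Finsupp.single_eq_same, smul_eq_mul, mul_one, Complex.star_def,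
        Complex.conj_ofReal]
    · rw [Finsupp.single_eq_of_ne hγ, Finsupp.single_eq_of_ne (by simpa using hγ), smul_zero,
        star_zero]
  · rw [if_neg hij, if_neg (Ne.symm hij), MonoidAlgebra.coeff_zero, Finsupp.zero_apply,
      Finsupp.zero_apply, star_zero]

theorem SCM_P_IP (m : Fin k → Fin k → MonoidAlgebra ℂ G) (C : ℝ) (e f : Fin k → MonoidAlgebra ℂ G) :
    SCM_IP e ((SCM_P m C).mulVec f) =
      (∑ i, ∑ j, ip (e i) (m i j * f j)) + (C : ℂ) * SCM_IP e f := by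
  classical
  rw [SCM_IP_mulVec]
  unfold SCM_IP
  rw [Finset.mul_sum, ← Finset.sum_add_distrib]
  apply Finset.sum_congr rfl
  intro i _
  have h1 : ∀ j, ip (e i) (SCM_P m C i j * f j) =
      ip (e i) (m i j * f j) + if i = j then (C : ℂ) * ip (e i) (f j) else 0 := by
    intro j
    unfold SCM_P
    rw [add_mul, SCM_ip_add_right]
    by_cases hij : i = j
    · rw [if_pos hij, if_pos hij, smul_mul_assoc, one_mul, SCM_ip_smul_right]
    · rw [if_neg hij, if_neg hij, zero_mul, SCM_ip_zero_right]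
  rw [Finset.sum_congr rfl (fun j _ => h1 j), Finset.sum_add_distrib, Finset.sum_ite_eq,
    if_pos (Finset.mem_univ i)]

theorem SCM_m_bound (m : Fin k → Fin k → MonoidAlgebra ℂ G) (e : Fin k → MonoidAlgebra ℂ G) :
    |(∑ i, ∑ j, ip (e i) (m i j * e j)).re| ≤ (∑ i, ∑ j, SCM_l1 (m i j)) * SCM_N e := by
  refine (Complex.abs_re_le_norm _).trans ((norm_sum_le _ _).trans ?_)
  rw [Finset.sum_mul]
  apply Finset.sum_le_sum
  intro i _
  refine (norm_sum_le _ _).trans ?_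
  rw [Finset.sum_mul]
  apply Finset.sum_le_sum
  intro j _
  refine (SCM_ip_mul_le _ _ _).trans ?_
  have h1 : ∀ i, l2 (e i) ^ 2 ≤ SCM_N e := fun i =>
    Finset.single_le_sum (f := fun i => l2 (e i) ^ 2) (fun _ _ => sq_nonneg _) (Finset.mem_univ i)
  apply mul_le_mul_of_nonneg_left
  · have := h1 i; have := h1 j; linarith
  · exact Finset.sum_nonneg (fun _ _ => norm_nonneg _)

theorem SCM : SCM_stmt := by
  intro G _ V _ _ _ ρ hstr k m s hm hs ε hε
  classical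
  let c₀ : ℝ := ∑ i, ∑ j, SCM_l1 (m i j)
  have hc₀ : 0 ≤ c₀ := Finset.sum_nonneg (fun _ _ => Finset.sum_nonneg (fun _ _ =>
    Finset.sum_nonneg (fun _ _ => norm_nonneg _)))
  let C : ℝ := c₀ + |s| + 1
  let t : ℝ := s + C
  have ht1 : 1 ≤ t := by
    have := neg_abs_le s
    simp only [t, C]; linarith
  have ht : 0 < t := by linarith
  let P := SCM_P m C
  have hP := SCM_P_herm m C hm
  have hIP : ∀ e : Fin k → MonoidAlgebra ℂ G, (SCM_IP e (P.mulVec e)).re =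
      (∑ i, ∑ j, ip (e i) (m i j * e j)).re + C * SCM_N e := by
    intro e
    rw [SCM_N_eq, ← Complex.re_ofReal_mul, ← Complex.add_re, ← SCM_P_IP]
  have h0 : ∀ e : Fin k → MonoidAlgebra ℂ G, 0 ≤ (SCM_IP e (P.mulVec e)).re := by
    intro e
    rw [hIP]
    have h1 := (abs_le.mp (SCM_m_bound m e)).1
    have h2 : 0 ≤ (|s| + 1) * SCM_N e := mul_nonneg (by positivity) (SCM_N_nonneg e)
    have h3 : C * SCM_N e = c₀ * SCM_N e + (|s| + 1) * SCM_N e := by
      simp only [C]; ring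
    rw [h3]
    linarith
  have h1 : ∀ e : Fin k → MonoidAlgebra ℂ G, (SCM_IP e (P.mulVec e)).re ≤ t * SCM_N e := by
    intro e
    rw [hIP]
    have h2 : (∑ i, ∑ j, ip (e i) (m i j * e j)).re ≤ s * SCM_N e := hs e
    have h3 : t * SCM_N e = s * SCM_N e + C * SCM_N e := by simp only [t]; ring
    rw [h3]; linarith
  have hcon := SCM_contr P t ht hP h0 h1
  -- choice of the power
  have hr : 1 < 1 + ε / t := by
    have : 0 < ε / t := by positivity
    linarith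
  obtain ⟨l, hl⟩ := pow_unbounded_of_one_lt (2 * (k : ℝ)) hr
  have hl2 : 2 * (k : ℝ) ≤ (1 + ε / t) ^ (2 ^ l) :=
    hl.le.trans (pow_le_pow_right₀ hr.le (Nat.lt_two_pow_self).le)
  have hkey : (k : ℝ) * (t ^ (2 ^ l) + t ^ (2 ^ l)) ≤ (t + ε) ^ (2 ^ l) := by
    have h2 : (t + ε) ^ (2 ^ l) = t ^ (2 ^ l) * (1 + ε / t) ^ (2 ^ l) := by
      rw [← mul_pow]
      congr 1
      field_simp
    rw [h2]
    have h3 : 0 < t ^ (2 ^ l) := by positivity
    nlinarith
  have hreg : ∀ i j, regNorm ((P ^ (2 ^ l)) i j) ≤ t ^ (2 ^ l) := fun i j =>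
    SCM_regNorm (P ^ (2 ^ l)) (t ^ (2 ^ l)) (by positivity) (SCM_contr_pow P t hcon (2 ^ l)) i j
  have hev : ∀ᶠ n in atTop, ∀ i j, ‖rep (ρ n) ((P ^ (2 ^ l)) i j)‖ ≤
      regNorm ((P ^ (2 ^ l)) i j) + t ^ (2 ^ l) := by
    rw [Filter.eventually_all]
    intro i
    rw [Filter.eventually_all]
    intro j
    exact hstr _ _ (by positivity)
  filter_upwards [hev] with n hn
  intro v
  let B : Matrix (Fin k) (Fin k) (V n →L[ℂ] V n) := fun i j => SCM_rep (ρ n) (P i j)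
  have hBN : ∀ N : ℕ, B ^ N = fun i j => SCM_rep (ρ n) ((P ^ N) i j) := by
    intro N
    have h2 : ((SCM_rep (ρ n) : MonoidAlgebra ℂ G →+* (V n →L[ℂ] V n)).mapMatrix P) ^ N =
        (SCM_rep (ρ n) : MonoidAlgebra ℂ G →+* (V n →L[ℂ] V n)).mapMatrix (P ^ N) :=
      (map_pow _ _ _).symm
    exact h2
  have hsa : IsSelfAdjoint (SCM_T B) := by
    apply SCM_T_adj
    intro i j v w
    have h2 := SCM_rep_adj (ρ n) (P i j) (P j i) (hP i j) v w
    rw [SCM_rep_eq, SCM_rep_eq] at h2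
    exact h2
  have hnorm : ‖SCM_T B‖ ^ (2 ^ l) ≤ (t + ε) ^ (2 ^ l) := by
    have h2 : ‖SCM_T B ^ (2 ^ l)‖ = ‖SCM_T B‖ ^ (2 ^ l) :=
      IsSelfAdjoint.norm_pow_two_pow (E := (PiLp 2 fun _ : Fin k => V n) →L[ℂ]
        PiLp 2 fun _ : Fin k => V n) (x := SCM_T B) hsa l
    rw [← h2, ← SCM_T_pow, hBN]
    refine (SCM_T_norm _ (t ^ (2 ^ l) + t ^ (2 ^ l)) (by positivity) ?_).trans hkey
    intro i j
    have h3 := hn i j
    rw [SCM_rep_eq] at h3
    exact h3.trans (by linarith [hreg i j])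
  have hT : ‖SCM_T B‖ ≤ t + ε :=
    le_of_pow_le_pow_left₀ (by positivity) (by positivity) hnorm
  let w : PiLp 2 (fun _ : Fin k => V n) := WithLp.toLp 2 v
  have hw : ∀ i, w i = v i := fun i => rfl
  have hin : (inner ℂ w (SCM_T B w)).re ≤ (t + ε) * ∑ i, ‖v i‖ ^ 2 := by
    have h2 : ‖inner ℂ w (SCM_T B w)‖ ≤ ‖w‖ * ‖SCM_T B w‖ := norm_inner_le_norm _ _
    have h3 : ‖SCM_T B w‖ ≤ (t + ε) * ‖w‖ :=
      ((SCM_T B).le_opNorm w).trans (mul_le_mul_of_nonneg_right hT (norm_nonneg _))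
    have h4 : ‖w‖ ^ 2 = ∑ i, ‖v i‖ ^ 2 := by
      rw [PiLp.norm_sq_eq_of_L2]
    rw [← h4]
    calc (inner ℂ w (SCM_T B w)).re ≤ ‖inner ℂ w (SCM_T B w)‖ := Complex.re_le_norm _
      _ ≤ ‖w‖ * ‖SCM_T B w‖ := h2
      _ ≤ ‖w‖ * ((t + ε) * ‖w‖) := mul_le_mul_of_nonneg_left h3 (norm_nonneg _)
      _ = (t + ε) * ‖w‖ ^ 2 := by ring
  have hexp : inner ℂ w (SCM_T B w) =
      (∑ i, ∑ j, inner ℂ (v i) (rep (ρ n) (m i j) (v j))) + (C : ℂ) * ((∑ i, ‖v i‖ ^ 2 : ℝ) : ℂ) := by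
    rw [PiLp.inner_apply, Complex.ofReal_sum, Finset.mul_sum, ← Finset.sum_add_distrib]
    apply Finset.sum_congr rfl
    intro i _
    rw [SCM_T_apply, inner_sum]
    have h2 : ∀ j, inner ℂ (w i) (B i j (w j)) = inner ℂ (v i) (rep (ρ n) (m i j) (v j)) +
        if i = j then (C : ℂ) * inner ℂ (v i) (v j) else 0 := by
      intro j
      have h3 : B i j = rep (ρ n) (m i j) + if i = j then (C : ℂ) • (1 : V n →L[ℂ] V n) else 0 := by
        change SCM_rep (ρ n) (m i j + if i = j then (C : ℂ) • (1 : MonoidAlgebra ℂ G) else 0) = _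
        rw [map_add, SCM_rep_eq]
        by_cases hij : i = j
        · rw [if_pos hij, if_pos hij, map_smul, map_one]
        · rw [if_neg hij, if_neg hij, map_zero]
      rw [h3, hw, hw]
      by_cases hij : i = j
      · rw [if_pos hij, if_pos hij, add_apply, inner_add_right]
        congr 1
        exact inner_smul_right _ _ _
      · rw [if_neg hij, if_neg hij, add_zero, add_zero]
    rw [Finset.sum_congr rfl (fun j _ => h2 j), Finset.sum_add_distrib, Finset.sum_ite_eq,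
      if_pos (Finset.mem_univ i), inner_self_eq_norm_sq_to_K, Complex.ofReal_pow]
    rfl
  rw [hexp, Complex.add_re, Complex.re_ofReal_mul, Complex.ofReal_re] at hin
  have h5 : (t + ε) * ∑ i, ‖v i‖ ^ 2 = (s + ε) * (∑ i, ‖v i‖ ^ 2) + C * ∑ i, ‖v i‖ ^ 2 := by
    simp only [t]; ring
  rw [h5] at hin
  linarith

end final

end Pool.Agent.QU
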