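import Pool.Agent.helper62.QU.Spec

/-!
# The inner product `ip` on the group algebra: basic properties (for qu:SCM and qu:TR2)
-/

set_option autoImplicit false

open scoped MatrixGroups ContDiff Topology UpperHalfPlane
open MeasureTheory Filter Set

namespace Pool.Agent.QU

variable {G : Type} [Group G]

theorem SCM_ip_sum (u v : MonoidAlgebra ℂ G) (T : Finset G) (h : u.coeff.support ⊆ T) :
    ip u v = ∑ γ ∈ T, star (u.coeff γ) * v.coeff γ := by
  unfold ip
  apply Finset.sum_subset h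
  intro x _ hx
  rw [Finsupp.notMem_support_iff] at hx
  rw [hx, star_zero, zero_mul]

theorem SCM_ip_add_left (u u' v : MonoidAlgebra ℂ G) : ip (u + u') v = ip u v + ip u' v := by
  classical
  rw [SCM_ip_sum (u + u') v (u.coeff.support ∪ u'.coeff.support)
      (by rw [MonoidAlgebra.coeff_add]; exact Finsupp.support_add),
    SCM_ip_sum u v (u.coeff.support ∪ u'.coeff.support) Finset.subset_union_left,
    SCM_ip_sum u' v (u.coeff.support ∪ u'.coeff.support) Finset.subset_union_right,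
    ← Finset.sum_add_distrib]
  apply Finset.sum_congr rfl
  intro x _
  rw [MonoidAlgebra.coeff_add, Finsupp.add_apply, star_add, add_mul]

theorem SCM_ip_add_right (u v v' : MonoidAlgebra ℂ G) : ip u (v + v') = ip u v + ip u v' := by
  unfold ip
  rw [← Finset.sum_add_distrib]
  apply Finset.sum_congr rfl
  intro x _
  rw [MonoidAlgebra.coeff_add, Finsupp.add_apply, mul_add]

theorem SCM_ip_smul_right (u v : MonoidAlgebra ℂ G) (c : ℂ) : ip u (c • v) = c * ip u v := by
  unfold ip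
  rw [Finset.mul_sum]
  apply Finset.sum_congr rfl
  intro x _
  rw [MonoidAlgebra.coeff_smul, Finsupp.smul_apply, smul_eq_mul]
  ring

theorem SCM_ip_zero_right (u : MonoidAlgebra ℂ G) : ip u 0 = 0 := by
  unfold ip
  apply Finset.sum_eq_zero
  intro x _
  rw [MonoidAlgebra.coeff_zero, Finsupp.zero_apply, mul_zero]

theorem SCM_ip_conj (u v : MonoidAlgebra ℂ G) : ip v u = star (ip u v) := by
  classical
  rw [SCM_ip_sum u v (u.coeff.support ∪ v.coeff.support) Finset.subset_union_left,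
    SCM_ip_sum v u (u.coeff.support ∪ v.coeff.support) Finset.subset_union_right, star_sum]
  apply Finset.sum_congr rfl
  intro x _
  rw [star_mul', star_star, mul_comm]

theorem SCM_ip_smul_left (u v : MonoidAlgebra ℂ G) (c : ℂ) : ip (c • u) v = star c * ip u v := by
  rw [SCM_ip_conj v (c • u), SCM_ip_smul_right, star_mul', ← SCM_ip_conj]

theorem SCM_ip_sum_right {ι : Type} (s : Finset ι) (u : MonoidAlgebra ℂ G) (f : ι → MonoidAlgebra ℂ G) :
    ip u (∑ i ∈ s, f i) = ∑ i ∈ s, ip u (f i) := by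
  classical
  induction s using Finset.induction_on with
  | empty => rw [Finset.sum_empty, Finset.sum_empty, SCM_ip_zero_right]
  | insert a s ha ih => rw [Finset.sum_insert ha, Finset.sum_insert ha, SCM_ip_add_right, ih]

theorem SCM_l2_sq (u : MonoidAlgebra ℂ G) : l2 u ^ 2 = (ip u u).re := by
  unfold l2 ip
  rw [Real.sq_sqrt (Finset.sum_nonneg (fun _ _ => by positivity)), Complex.re_sum]
  apply Finset.sum_congr rfl
  intro x _
  rw [Complex.star_def, Complex.conj_mul']
  norm_cast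

omit [Group G] in
theorem SCM_l2_nonneg (u : MonoidAlgebra ℂ G) : 0 ≤ l2 u := Real.sqrt_nonneg _

/-- translation -/
theorem SCM_trans (γ x : G) (v : MonoidAlgebra ℂ G) :
    (MonoidAlgebra.single γ (1 : ℂ) * v).coeff x = v.coeff (γ⁻¹ * x) := by
  rw [MonoidAlgebra.coeff_single_mul_apply, one_mul]

theorem SCM_mul_expand (a v : MonoidAlgebra ℂ G) :
    a * v = ∑ γ ∈ a.coeff.support, a.coeff γ • (MonoidAlgebra.single γ (1 : ℂ) * v) := by
  conv_lhs => rw [← MonoidAlgebra.sum_coeff_single a]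
  rw [Finsupp.sum, Finset.sum_mul]
  apply Finset.sum_congr rfl
  intro γ _
  rw [← smul_mul_assoc, MonoidAlgebra.smul_single, smul_eq_mul, mul_one]

theorem SCM_ip_mul (u a v : MonoidAlgebra ℂ G) :
    ip u (a * v) = ∑ γ ∈ a.coeff.support, a.coeff γ * ip u (MonoidAlgebra.single γ (1 : ℂ) * v) := by
  rw [SCM_mul_expand, SCM_ip_sum_right]
  apply Finset.sum_congr rfl
  intro γ _
  rw [SCM_ip_smul_right]

/-- `⟨u, γ v⟩` is the conjugate of `⟨v, γ⁻¹ u⟩` -/
theorem SCM_ip_trans (u v : MonoidAlgebra ℂ G) (γ : G) :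
    ip u (MonoidAlgebra.single γ (1 : ℂ) * v) =
      star (ip v (MonoidAlgebra.single γ⁻¹ (1 : ℂ) * u)) := by
  classical
  have h1 : ip u (MonoidAlgebra.single γ (1 : ℂ) * v) =
      ∑ x ∈ u.coeff.support ∪ v.coeff.support.image (fun y => γ * y),
        star (u.coeff x) * v.coeff (γ⁻¹ * x) := by
    rw [SCM_ip_sum u _ _ Finset.subset_union_left]
    apply Finset.sum_congr rfl
    intro x _
    rw [SCM_trans]
  have h2 : ip v (MonoidAlgebra.single γ⁻¹ (1 : ℂ) * u) =
      ∑ y ∈ (u.coeff.support ∪ v.coeff.support.image (fun y => γ * y)).image (fun x => γ⁻¹ * x),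
        star (v.coeff y) * u.coeff (γ * y) := by
    have hT : v.coeff.support ⊆
        (u.coeff.support ∪ v.coeff.support.image (fun y => γ * y)).image (fun x => γ⁻¹ * x) := by
      intro y hy
      rw [Finset.mem_image]
      refine ⟨γ * y, Finset.mem_union_right _ (Finset.mem_image_of_mem (fun y => γ * y) hy), ?_⟩
      rw [inv_mul_cancel_left]
    rw [SCM_ip_sum v _ _ hT]
    apply Finset.sum_congr rfl
    intro x _
    rw [SCM_trans, inv_inv]
  rw [h1, h2, Finset.sum_image (fun a _ b _ hab => mul_left_cancel hab), star_sum]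
  apply Finset.sum_congr rfl
  intro x _
  rw [star_mul', star_star, mul_inv_cancel_left, mul_comm]

theorem SCM_ip_herm (a b : MonoidAlgebra ℂ G) (h : ∀ γ, a.coeff γ = star (b.coeff γ⁻¹))
    (u v : MonoidAlgebra ℂ G) : ip u (a * v) = star (ip v (b * u)) := by
  classical
  rw [SCM_ip_mul, SCM_ip_mul, star_sum]
  apply Finset.sum_nbij' (fun γ => γ⁻¹) (fun γ => γ⁻¹)
  · intro γ hγ
    rw [Finsupp.mem_support_iff] at hγ ⊢
    intro h0
    apply hγ
    rw [h γ, h0, star_zero]
  · intro γ hγ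
    rw [Finsupp.mem_support_iff] at hγ ⊢
    intro h0
    apply hγ
    rw [h γ⁻¹, inv_inv] at h0
    exact star_eq_zero.mp h0
  · intro γ _; exact inv_inv γ
  · intro γ _; exact inv_inv γ
  · intro γ _
    rw [SCM_ip_trans, star_mul', h γ]

theorem SCM_l2_trans (γ : G) (v : MonoidAlgebra ℂ G) :
    l2 (MonoidAlgebra.single γ (1 : ℂ) * v) = l2 v := by
  have h1 : l2 (MonoidAlgebra.single γ (1 : ℂ) * v) ^ 2 = l2 v ^ 2 := by
    rw [SCM_l2_sq, SCM_l2_sq, SCM_ip_trans, ← mul_assoc, MonoidAlgebra.single_mul_single,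
      inv_mul_cancel, one_mul, ← MonoidAlgebra.one_def, one_mul, ← SCM_ip_conj]
  exact (sq_eq_sq₀ (SCM_l2_nonneg _) (SCM_l2_nonneg _)).mp h1

/-- `|⟨u, v⟩| ≤ (‖u‖² + ‖v‖²) / 2` -/
theorem SCM_ip_le (u v : MonoidAlgebra ℂ G) : ‖ip u v‖ ≤ (l2 u ^ 2 + l2 v ^ 2) / 2 := by
  classical
  have h1 : ∀ w : MonoidAlgebra ℂ G, ∀ T : Finset G, w.coeff.support ⊆ T →
      l2 w ^ 2 = ∑ γ ∈ T, ‖w.coeff γ‖ ^ 2 := by
    intro w T hT
    rw [SCM_l2_sq, SCM_ip_sum w w T hT, Complex.re_sum]
    apply Finset.sum_congr rfl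
    intro x _
    rw [Complex.star_def, Complex.conj_mul']
    norm_cast
  rw [SCM_ip_sum u v (u.coeff.support ∪ v.coeff.support) Finset.subset_union_left,
    h1 u _ Finset.subset_union_left, h1 v _ Finset.subset_union_right, ← Finset.sum_add_distrib,
    Finset.sum_div]
  refine (norm_sum_le _ _).trans (Finset.sum_le_sum ?_)
  intro x _
  rw [norm_mul, norm_star]
  nlinarith [sq_nonneg (‖u.coeff x‖ - ‖v.coeff x‖)]

/-- the `ℓ¹` norm -/
noncomputable def SCM_l1 (a : MonoidAlgebra ℂ G) : ℝ := ∑ γ ∈ a.coeff.support, ‖a.coeff γ‖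

theorem SCM_ip_mul_le (u a v : MonoidAlgebra ℂ G) :
    ‖ip u (a * v)‖ ≤ SCM_l1 a * ((l2 u ^ 2 + l2 v ^ 2) / 2) := by
  rw [SCM_ip_mul, SCM_l1, Finset.sum_mul]
  refine (norm_sum_le _ _).trans (Finset.sum_le_sum ?_)
  intro γ _
  rw [norm_mul]
  apply mul_le_mul_of_nonneg_left _ (norm_nonneg _)
  have := SCM_ip_le u (MonoidAlgebra.single γ (1 : ℂ) * v)
  rwa [SCM_l2_trans] at this

end Pool.Agent.QU
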