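import Pool.Agent.helper59.QU.IpBasic

/-!
# qu:TR2 (MP_07c750_an): the group algebra matrix of a negative semidefinite kernel
-/

set_option autoImplicit false

open scoped MatrixGroups ContDiff Topology UpperHalfPlane
open UpperHalfPlane MeasureTheory Filter Set

namespace Pool.Agent.QU

theorem TR2_NSD (a : ℍ → ℍ → ℝ) (h : NSD a) {ι : Type} [Fintype ι] (q : ι → ℍ) (x : ι → ℝ) :
    ∑ l, ∑ l', x l * x l' * a (q l) (q l') ≤ 0 := by
  let e := (Fintype.equivFin ι).symm
  have h1 := h (Fintype.card ι) (fun l => q (e l)) (fun l => x (e l))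
  have h2 : ∑ l, ∑ l', x l * x l' * a (q l) (q l') =
      ∑ l, ∑ l', x (e l) * x (e l') * a (q (e l)) (q (e l')) := by
    rw [← e.sum_comp (fun l => ∑ l', x l * x l' * a (q l) (q l'))]
    apply Finset.sum_congr rfl
    intro l _
    rw [← e.sum_comp (fun l' => x (e l) * x l' * a (q (e l)) (q l'))]
  rw [h2]
  exact h1

theorem TR2_coeff (Γ : Subgroup SL(2, ℝ)) (a : ℍ → ℍ → ℝ) (S : Finset Γ) (k : ℕ)
    (p : Fin k → ℍ) (hS : ∀ (γ : Γ) (i j : Fin k), a (p i) (γ • p j) ≠ 0 → γ ∈ S)
    (i j : Fin k) (γ : Γ) : (mC a S p i j).coeff γ = ((a (p i) (γ • p j) : ℝ) : ℂ) := by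
  classical
  unfold mC
  rw [MonoidAlgebra.coeff_sum, Finsupp.finsetSum_apply]
  by_cases hγ : γ ∈ S
  · rw [Finset.sum_eq_single γ]
    · rw [MonoidAlgebra.coeff_single, Finsupp.single_eq_same]
    · intro b _ hb
      rw [MonoidAlgebra.coeff_single, Finsupp.single_eq_of_ne (Ne.symm hb)]
    · intro h; exact absurd hγ h
  · rw [Finset.sum_eq_zero]
    · have h1 : a (p i) (γ • p j) = 0 := by
        by_contra h0
        exact hγ (hS γ i j h0)
      rw [h1, Complex.ofReal_zero]
    · intro b hb
      rw [MonoidAlgebra.coeff_single, Finsupp.single_eq_of_ne]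
      intro h
      exact hγ (h ▸ hb)

theorem TR2 : TR2_stmt := by
  intro Γ a S k p hP hN _ hS
  classical
  have hco := TR2_coeff Γ a S k p hS
  refine ⟨?_, ?_⟩
  · intro i j γ
    rw [hco, hco, Complex.star_def, Complex.conj_ofReal]
    congr 1
    have h1 := hP.inv γ (p j) (γ⁻¹ • p i)
    rw [smul_inv_smul] at h1
    rw [← h1, hP.symm]
  · intro e
    let T : Finset Γ := Finset.univ.biUnion (fun i => (e i).coeff.support)
    have hT : ∀ i, (e i).coeff.support ⊆ T := fun i =>
      Finset.subset_biUnion_of_mem (fun i => (e i).coeff.support) (Finset.mem_univ i)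
    let q : Fin k × T → ℍ := fun l => ((l.2 : Γ)⁻¹ : Γ) • p l.1
    let z : Fin k × T → ℂ := fun l => (e l.1).coeff (l.2 : Γ)
    have hmul : ∀ i j (x : Γ), (mC a S p i j * e j).coeff x =
        ∑ y ∈ T, ((a (x⁻¹ • p i) (y⁻¹ • p j) : ℝ) : ℂ) * (e j).coeff y := by
      intro i j x
      rw [MonoidAlgebra.coeff_mul_apply_right, Finsupp.sum]
      rw [Finset.sum_subset (hT j) (by
        intro y _ hy
        rw [Finsupp.notMem_support_iff] at hy
        rw [hy, mul_zero])]
      apply Finset.sum_congr rfl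
      intro y _
      rw [hco]
      congr 2
      have h1 := hP.inv x⁻¹ (p i) ((x * y⁻¹) • p j)
      rw [← h1, smul_smul, inv_mul_cancel_left]
    have hform : (∑ i, ∑ j, ip (e i) (mC a S p i j * e j)) =
        ∑ l : Fin k × T, ∑ l' : Fin k × T, star (z l) * (((a (q l) (q l') : ℝ) : ℂ) * z l') := by
      rw [Fintype.sum_prod_type]
      apply Finset.sum_congr rfl
      intro i _
      have h1 : ∀ j, ip (e i) (mC a S p i j * e j) = ∑ x : T, ∑ y : T,
          star ((e i).coeff (x : Γ)) *
            (((a ((x : Γ)⁻¹ • p i) ((y : Γ)⁻¹ • p j) : ℝ) : ℂ) * (e j).coeff (y : Γ)) := by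
        intro j
        rw [SCM_ip_sum _ _ T (hT i), ← Finset.sum_coe_sort]
        apply Finset.sum_congr rfl
        intro x _
        rw [hmul, Finset.mul_sum, ← Finset.sum_coe_sort]
      rw [Finset.sum_congr rfl (fun j _ => h1 j), Finset.sum_comm]
      apply Finset.sum_congr rfl
      intro x _
      rw [Fintype.sum_prod_type]
    rw [hform, Complex.re_sum]
    have h2 : ∀ l : Fin k × T, (∑ l' : Fin k × T, star (z l) * (((a (q l) (q l') : ℝ) : ℂ) * z l')).re =
        (∑ l', (z l).re * (z l').re * a (q l) (q l')) + ∑ l', (z l).im * (z l').im * a (q l) (q l') := by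
      intro l
      rw [Complex.re_sum, ← Finset.sum_add_distrib]
      apply Finset.sum_congr rfl
      intro l' _
      rw [Complex.star_def]
      simp only [Complex.mul_re, Complex.mul_im, Complex.conj_re, Complex.conj_im, Complex.ofReal_re,
        Complex.ofReal_im]
      ring
    rw [Finset.sum_congr rfl (fun l _ => h2 l), Finset.sum_add_distrib]
    have h3 := TR2_NSD a hN q (fun l => (z l).re)
    have h4 := TR2_NSD a hN q (fun l => (z l).im)
    linarith

end Pool.Agent.QU
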